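import Pool.Agent.Helper79.GL4.GoalsA

/-!
# GL4: S5B3 (MP_27a5f8_al)
-/

set_option linter.unusedVariables false

namespace GL4.H39

open Module Submodule GL4

variable {F : Type} [Field F] {V : Type} [AddCommGroup V] [Module F V]

theorem mkQ_p (p : V) : (F ∙ p).mkQ p = 0 := by
  simp [mem_span_singleton_self]

theorem mkQ_smul_p (p : V) (c : F) : (F ∙ p).mkQ (c • p) = 0 := by
  rw [map_smul, mkQ_p, smul_zero]

theorem im_fix {p : V} {k : V ≃ₗ[F] V} (h : k p = p) : im k (F ∙ p) = F ∙ p := by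
  rw [im_span_singleton, h]

theorem commute_of {K : Subgroup (V ≃ₗ[F] V)} {p : V} (hF : FaithQ K (F ∙ p))
    {s t : V ≃ₗ[F] V} (hs : s ∈ K) (ht : t ∈ K) (hsp : s p = p) (htp : t p = p)
    (h : ∀ v, (F ∙ p).mkQ (t (s v)) = (F ∙ p).mkQ (s (t v))) (v : V) : t (s v) = s (t v) := by
  have h1 : (t * s) * (s * t)⁻¹ = 1 := by
    apply hF _ (K.mul_mem (K.mul_mem ht hs) (K.inv_mem (K.mul_mem hs ht)))
    · rw [im_mul]
      have h3 : im (s * t) (F ∙ p) = F ∙ p := by
        rw [im_mul, im_fix htp, im_fix hsp]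
      rw [im_inv_of_eq h3, im_mul, im_fix hsp, im_fix htp]
    · intro v
      have h4 : (s * t) ((s * t)⁻¹ v) = v := (s * t).apply_symm_apply v
      have h5 := h ((s * t)⁻¹ v)
      have h6 : s (t ((s * t)⁻¹ v)) = v := h4
      rw [h6] at h5
      exact h5
  have h2 : t * s = s * t := by
    rw [mul_inv_eq_one] at h1
    exact h1
  exact congrArg (fun g : V ≃ₗ[F] V => g v) h2

/-- `t` is a lift of `1 + f ⊗ mkQ x` -/
def IsL (p : V) (t : V ≃ₗ[F] V) (f : Module.Dual F (V ⧸ (F ∙ p))) (x : V)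
    (ψ : Module.Dual F (V ⧸ (F ∙ p))) : Prop :=
  ∀ v, t v = v + f ((F ∙ p).mkQ v) • x + ψ ((F ∙ p).mkQ v) • p

theorem IsL.fix {p : V} {t : V ≃ₗ[F] V} {f : Module.Dual F (V ⧸ (F ∙ p))} {x : V}
    {ψ : Module.Dual F (V ⧸ (F ∙ p))} (h : IsL p t f x ψ) : t p = p := by
  rw [h p, mkQ_p]; simp

theorem IsL.mkQ {p : V} {t : V ≃ₗ[F] V} {f : Module.Dual F (V ⧸ (F ∙ p))} {x : V}
    {ψ : Module.Dual F (V ⧸ (F ∙ p))} (h : IsL p t f x ψ) (v : V) :
    (F ∙ p).mkQ (t v) = (F ∙ p).mkQ v + f ((F ∙ p).mkQ v) • (F ∙ p).mkQ x := by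
  rw [h v, map_add, map_add, mkQ_smul_p, add_zero, map_smul]

/-- composition of lifts of two commuting transvections -/
theorem comp_apply {p : V} {t s : V ≃ₗ[F] V} {f g : Module.Dual F (V ⧸ (F ∙ p))} {x y : V}
    {ψ χ : Module.Dual F (V ⧸ (F ∙ p))} (ht : IsL p t f x ψ) (hs : IsL p s g y χ)
    (hfy : f ((F ∙ p).mkQ y) = 0) (v : V) :
    t (s v) = v + f ((F ∙ p).mkQ v) • x + g ((F ∙ p).mkQ v) • y +
      (ψ ((F ∙ p).mkQ v) + χ ((F ∙ p).mkQ v) + g ((F ∙ p).mkQ v) * ψ ((F ∙ p).mkQ y)) • p := by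
  rw [ht (s v), hs.mkQ v, map_add, map_add, map_smul, map_smul, hfy, smul_zero, add_zero, hs v,
    smul_eq_mul]
  module

theorem lift_comm {K : Subgroup (V ≃ₗ[F] V)} {p : V} (hp : p ≠ 0) (hF : FaithQ K (F ∙ p))
    {t s : V ≃ₗ[F] V} (htK : t ∈ K) (hsK : s ∈ K)
    {f g : Module.Dual F (V ⧸ (F ∙ p))} {x y : V}
    {ψ χ : Module.Dual F (V ⧸ (F ∙ p))} (ht : IsL p t f x ψ) (hs : IsL p s g y χ)
    (hfy : f ((F ∙ p).mkQ y) = 0) (hgx : g ((F ∙ p).mkQ x) = 0) (w : V ⧸ (F ∙ p)) :
    g w * ψ ((F ∙ p).mkQ y) = f w * χ ((F ∙ p).mkQ x) := by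
  obtain ⟨v, rfl⟩ := (F ∙ p).mkQ_surjective w
  have h1 := comp_apply ht hs hfy
  have h2 := comp_apply hs ht hgx
  have h3 : t (s v) = s (t v) := by
    apply commute_of hF hsK htK hs.fix ht.fix
    intro v
    rw [h1 v, h2 v]
    simp only [map_add, map_smul, mkQ_p, smul_zero, add_zero]
    abel
  rw [h1 v, h2 v] at h3
  have h4 : (g ((F ∙ p).mkQ v) * ψ ((F ∙ p).mkQ y) - f ((F ∙ p).mkQ v) * χ ((F ∙ p).mkQ x)) • p
      = 0 := by
    have h5 := sub_eq_zero.2 h3
    rw [← h5]
    module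
  rcases smul_eq_zero.1 h4 with h5 | h5
  · exact sub_eq_zero.1 h5
  · exact absurd h5 hp

/-- step (1) -/
theorem step1 {K : Subgroup (V ≃ₗ[F] V)} {p : V} (hp : p ≠ 0) (hF : FaithQ K (F ∙ p))
    (hL : LiftData K (F ∙ p) p) {t : V ≃ₗ[F] V} (htK : t ∈ K)
    {f : Module.Dual F (V ⧸ (F ∙ p))} {x : V} {ψ : Module.Dual F (V ⧸ (F ∙ p))}
    (ht : IsL p t f x ψ) (hfx : f ((F ∙ p).mkQ x) = 0) (g : Module.Dual F (V ⧸ (F ∙ p)))
    (hgx : g ((F ∙ p).mkQ x) = 0) (y : V ⧸ (F ∙ p)) (hgy : g y = 1) (hfy : f y = 0) :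
    ψ ((F ∙ p).mkQ x) = 0 := by
  obtain ⟨s, hsK, x', χ, hx', hs⟩ := hL g ((F ∙ p).mkQ x) hgx
  have hs' : IsL p s g x' χ := hs
  have h1 := lift_comm hp hF htK hsK ht hs' (by rw [hx']; exact hfx) hgx y
  rw [hgy, hfy, zero_mul, one_mul, hx'] at h1
  exact h1

theorem s5b3 (hSLG : GL4.SLG) : GL4.S5B3 := by
  intro F _ _ V _ _ _ K p hp hF hL hdim hq
  have hW : finrank F (V ⧸ (F ∙ p)) = 3 := by
    have h1 := Submodule.finrank_quotient_add_finrank (F ∙ p)
    rw [hdim, finrank_span_singleton hp] at h1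
    omega
  set b : Basis (Fin 3) F (V ⧸ (F ∙ p)) := finBasisOfFinrankEq F _ hW with hb
  set f := b.coord 2 with hf
  have f0 : f (b 0) = 0 := by simp [hf]
  have f1 : f (b 1) = 0 := by simp [hf]
  have f2 : f (b 2) = 1 := by simp [hf]
  obtain ⟨t, htK, u', ψ, hu', ht'⟩ := hL f (b 0) f0
  obtain ⟨s, hsK, w', χ, hw', hs'⟩ := hL f (b 1) f1
  have ht : IsL p t f u' ψ := ht'
  have hs : IsL p s f w' χ := hs'
  have hψ0 : ψ (b 0) = 0 := by
    have := step1 hp hF hL htK ht (by rw [hu']; exact f0) (b.coord 1) (by rw [hu']; simp) (b 1)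
      (by simp) f1
    rwa [hu'] at this
  have hχ1 : χ (b 1) = 0 := by
    have := step1 hp hF hL hsK hs (by rw [hw']; exact f1) (b.coord 0) (by rw [hw']; simp) (b 0)
      (by simp) f0
    rwa [hw'] at this
  -- (2)
  have h2 : ψ (b 1) = χ (b 0) := by
    have := lift_comm hp hF htK hsK ht hs (by rw [hw']; exact f1) (by rw [hu']; exact f0) (b 2)
    rw [f2, one_mul, one_mul, hw', hu'] at this
    exact this
  -- the key
  have hψ1 : ψ (b 1) = 0 := by
    by_cases h20 : (2 : F) = 0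
    · -- characteristic 2
      obtain ⟨γ, hγ0, hγ1⟩ : ∃ γ : F, γ ≠ 0 ∧ γ ≠ 1 := by
        by_contra hc
        push Not at hc
        have : Nat.card F ≤ 2 := by
          have hsub : (Set.univ : Set F) ⊆ {0, 1} := by
            intro x _
            by_cases hx : x = 0
            · left; exact hx
            · right; exact hc x hx
          have := Set.ncard_le_ncard hsub (Set.toFinite _)
          rw [Set.ncard_univ] at this
          refine this.trans ?_
          exact (Set.ncard_insert_le _ _).trans (by simp)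
        omega
      set M : Matrix (Fin 3) (Fin 3) F := Matrix.diagonal ![γ, γ⁻¹ * γ⁻¹, γ] with hM
      have hdet : M.det = 1 := by
        rw [hM, Matrix.det_diagonal, Fin.prod_univ_three]
        simp
        field_simp
      set h : (V ⧸ (F ∙ p)) ≃ₗ[F] (V ⧸ (F ∙ p)) :=
        Matrix.toLinearEquiv b M (by rw [hdet]; exact isUnit_one) with hh
      have happ : ∀ i, h (b i) = (![γ, γ⁻¹ * γ⁻¹, γ] : Fin 3 → F) i • b i := by
        intro i
        have : h (b i) = Matrix.toLin b b M (b i) := rfl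
        rw [this, Matrix.toLin_self, hM]
        rw [Finset.sum_eq_single i]
        · rw [Matrix.diagonal_apply_eq]
        · intro j _ hj
          rw [Matrix.diagonal_apply_ne _ hj, zero_smul]
        · intro hi; exact absurd (Finset.mem_univ i) hi
      have h0 : h (b 0) = γ • b 0 := happ 0
      have h1 : h (b 1) = (γ⁻¹ * γ⁻¹) • b 1 := happ 1
      have h2' : h (b 2) = γ • b 2 := happ 2
      -- the subgroup R
      let R : Subgroup ((V ⧸ (F ∙ p)) ≃ₗ[F] (V ⧸ (F ∙ p))) :=
        { carrier := {g | ∃ k ∈ K, k p = p ∧ ∀ v, (F ∙ p).mkQ (k v) = g ((F ∙ p).mkQ v)}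
          one_mem' := ⟨1, K.one_mem, rfl, fun v => rfl⟩
          mul_mem' := by
            rintro g g' ⟨k, hk, hkp, hkv⟩ ⟨k', hk', hkp', hkv'⟩
            refine ⟨k * k', K.mul_mem hk hk', ?_, fun v => ?_⟩
            · rw [LinearEquiv.mul_apply, hkp', hkp]
            · rw [LinearEquiv.mul_apply, LinearEquiv.mul_apply, hkv, hkv']
          inv_mem' := by
            rintro g ⟨k, hk, hkp, hkv⟩
            refine ⟨k⁻¹, K.inv_mem hk, ?_, fun v => ?_⟩
            · have h3 : k⁻¹ (k p) = p := k.symm_apply_apply p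
              rwa [hkp] at h3
            · have h3 : k (k⁻¹ v) = v := k.apply_symm_apply v
              have h4 := hkv (k⁻¹ v)
              rw [h3] at h4
              rw [h4]
              exact (g.symm_apply_apply _).symm }
      have hR : HasSL R := by
        apply hSLG F (V ⧸ (F ∙ p)) R
        rintro g ⟨_, f', x, hfx, hg⟩
        obtain ⟨k, hk, x', ψ', hx', hk'⟩ := hL f' x hfx
        refine ⟨k, hk, ?_, fun v => ?_⟩
        · exact IsL.fix (show IsL p k f' x' ψ' from hk')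
        · rw [IsL.mkQ (show IsL p k f' x' ψ' from hk') v, hx', hg]
      obtain ⟨k, hk, hkp, hkv⟩ := hR h (by
        have : (h : (V ⧸ (F ∙ p)) →ₗ[F] (V ⧸ (F ∙ p))) = Matrix.toLin b b M := rfl
        rw [this, LinearMap.det_toLin, hdet])
      -- f (h y) = γ f y
      have hfh : ∀ y, f (h y) = γ * f y := by
        intro y
        have : f.comp (h : (V ⧸ (F ∙ p)) →ₗ[F] (V ⧸ (F ∙ p))) = γ • f := by
          apply b.ext
          intro i
          fin_cases i
          · simp only [Fin.zero_eta, LinearMap.comp_apply, LinearEquiv.coe_coe, LinearMap.smul_apply]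
            rw [h0, map_smul, f0]
          · simp only [Fin.mk_one, LinearMap.comp_apply, LinearEquiv.coe_coe, LinearMap.smul_apply]
            rw [h1, map_smul, f1, smul_zero, smul_zero]
          · simp only [Fin.reduceFinMk, LinearMap.comp_apply, LinearEquiv.coe_coe,
              LinearMap.smul_apply]
            rw [h2', map_smul]
        have h5 := congrArg (fun φ : Module.Dual F (V ⧸ (F ∙ p)) => φ y) this
        simpa using h5
      have hcomm := commute_of hF hk htK hkp ht.fix (by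
        intro v
        rw [ht.mkQ (k v), hkv, hfh, hkv, ht.mkQ v, map_add, map_smul, hu', h0, smul_smul,
          mul_comm γ])
      have h6 := hcomm w'
      rw [ht (k w'), ht w', hkv, hw', h1, map_smul, map_smul, f1, smul_zero, zero_smul, add_zero,
        add_zero, map_add, map_smul, hkp] at h6
      have h7 : ((γ⁻¹ * γ⁻¹) • ψ (b 1) - ψ (b 1)) • p = 0 := by
        have h8 := add_left_cancel h6
        rw [sub_smul, h8, sub_self]
      rcases smul_eq_zero.1 h7 with h8 | h8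
      · have h9 : (γ⁻¹ - 1) * (γ⁻¹ - 1) * ψ (b 1) = 0 := by
          rw [smul_eq_mul] at h8
          have : (γ⁻¹ - 1) * (γ⁻¹ - 1) * ψ (b 1) = γ⁻¹ * γ⁻¹ * ψ (b 1) - ψ (b 1)
            - 2 * (γ⁻¹ - 1) * ψ (b 1) := by ring
          rw [this, h8, h20]; ring
        have h10 : γ⁻¹ - 1 ≠ 0 := by
          intro h11
          apply hγ1
          have : γ⁻¹ = 1 := sub_eq_zero.1 h11
          exact inv_eq_one.1 this
        rcases mul_eq_zero.1 h9 with h11 | h11
        · rcases mul_eq_zero.1 h11 with h12 | h12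
          · exact absurd h12 h10
          · exact absurd h12 h10
        · exact h11
      · exact absurd h8 hp
    · -- odd characteristic
      have hts : IsL p (t * s) f (u' + w') (ψ + χ + ψ (b 1) • f) := by
        intro v
        rw [LinearEquiv.mul_apply, comp_apply ht hs (by rw [hw']; exact f1), hw']
        simp only [LinearMap.add_apply, LinearMap.smul_apply, smul_eq_mul]
        module
      have h3 := step1 hp hF hL (K.mul_mem htK hsK) hts
        (by rw [map_add, hu', hw', map_add, f0, f1, add_zero]) (b.coord 0 - b.coord 1)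
        (by rw [map_add, hu', hw']; simp) (b 0) (by simp) f0
      rw [map_add, hu', hw'] at h3
      simp only [LinearMap.add_apply, LinearMap.smul_apply, map_add, hψ0, hχ1, f0, f1,
        smul_eq_mul, mul_zero, add_zero, zero_add] at h3
      rw [← h2] at h3
      have h4 : (2 : F) * ψ (b 1) = 0 := by rw [two_mul]; exact h3
      exact (mul_eq_zero.1 h4).resolve_left h20
  -- conclusion
  have hψ : ψ = ψ (b 2) • f := by
    apply b.ext
    intro i
    fin_cases i
    · simp only [Fin.zero_eta, LinearMap.smul_apply, f0, smul_zero]; exact hψ0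
    · simp only [Fin.mk_one, LinearMap.smul_apply, f1, smul_zero]; exact hψ1
    · simp only [Fin.reduceFinMk, LinearMap.smul_apply, f2, smul_eq_mul, mul_one]
  have hu1 : (F ∙ p).mkQ (u' + ψ (b 2) • p) = b 0 := by
    rw [map_add, mkQ_smul_p, add_zero, hu']
  have htv : ∀ v, t v = v + (f.comp (F ∙ p).mkQ) v • (u' + ψ (b 2) • p) := by
    intro v
    have h3 : ψ ((F ∙ p).mkQ v) = ψ (b 2) * f ((F ∙ p).mkQ v) := by
      have := congrArg (fun φ : Module.Dual F (V ⧸ (F ∙ p)) => φ ((F ∙ p).mkQ v)) hψ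
      simpa using this
    rw [ht v, h3, LinearMap.comp_apply]
    module
  refine ⟨t, htK, ?_, f.comp (F ∙ p).mkQ, u' + ψ (b 2) • p, ?_, htv⟩
  · intro h1
    obtain ⟨v, hv⟩ := (F ∙ p).mkQ_surjective (b 2)
    have h3 := htv v
    rw [h1, LinearMap.comp_apply, hv, f2, one_smul] at h3
    have h4 : u' + ψ (b 2) • p = 0 := by
      have h5 : v = v + (u' + ψ (b 2) • p) := h3
      exact (left_eq_add.1 h5)
    rw [h4, map_zero] at hu1
    exact b.ne_zero 0 hu1.symm
  · rw [LinearMap.comp_apply, hu1, f0]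

end GL4.H39
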